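import Mathlib
import Pool.Agent.R592.Ba.Final

set_option autoImplicit false

/-!
MP_ddd032_lc: the weak and the full Baumgartner axioms are equivalent, on the Cantor space and on
the Baire space, for every cardinal outside the interval strictly between `𝔟` and `non(M)`.
-/

namespace Pool.Agent.Results.MP_ddd032_lc.WeakFull

open Cardinal Pool.Agent.R592.Ba

/-- For `κ ≤ ℵ₁`, `κ ≤ 𝔟`, `κ ≥ non(M)`, `cf κ = 𝔟` or `cf κ = cf 𝔡`: the weak axiom
`BA⁻_κ` and the full axiom `BA_κ` are equivalent on `2^ω` and on `ω^ω`. -/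
theorem result (κ : Cardinal.{0})
    (hκ : κ ≤ ℵ₁ ∨ κ ≤ bnum ∨ nonM ≤ κ ∨ κ.ord.cof = bnum ∨ κ.ord.cof = dnum.ord.cof) :
    (BAm κ (ℕ → Bool) ↔ BA κ (ℕ → Bool)) ∧ (BAm κ (ℕ → ℕ) ↔ BA κ (ℕ → ℕ)) := by
  refine equiv_thm κ ?_
  rcases hκ with h | h
  · left
    refine h.trans ?_
    have h1 : Order.succ ℵ₀ ≤ bnum := Order.succ_le_of_lt b_facts.1
    rwa [succ_aleph0] at h1
  · exact h

end Pool.Agent.Results.MP_ddd032_lc.WeakFull
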